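import Mathlib

/-! # An entire bijection with entire inverse is affine (packet AFF of `MP_97d78d_ag`) -/

open Complex Metric Set Filter Topology

namespace Pool.Agent.Helper74.Lin

theorem entire_of_linear_growth {p : ℂ → ℂ} (hp : Differentiable ℂ p) {C : ℝ} (hC : 0 ≤ C)
    (hb : ∀ w, ‖p w‖ ≤ C + ‖w‖) : ∃ α β : ℂ, ∀ w, p w = α + β * w := by
  have hder : ∀ w, ‖deriv p w‖ ≤ C + 2 := by
    intro w
    have hR : (0:ℝ) < 1 + ‖w‖ := by positivity
    have h1 : ∀ z ∈ sphere w (1 + ‖w‖), ‖p z‖ ≤ (C + 2) * (1 + ‖w‖) := by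
      intro z hz
      have hz' : ‖z‖ ≤ ‖w‖ + (1 + ‖w‖) := by
        have : ‖z - w‖ = 1 + ‖w‖ := by simpa [dist_eq_norm] using hz
        calc ‖z‖ = ‖w + (z - w)‖ := by ring_nf
          _ ≤ ‖w‖ + ‖z - w‖ := norm_add_le _ _
          _ = _ := by rw [this]
      have := hb z
      have hw := norm_nonneg w
      nlinarith
    have := Complex.norm_deriv_le_of_forall_mem_sphere_norm_le hR hp.diffContOnCl h1
    rwa [mul_div_assoc, div_self hR.ne', mul_one] at this
  have hd2 : Differentiable ℂ (deriv p) := by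
    have := (hp.contDiff (n := 2))
    exact (this.differentiable_deriv_two)
  obtain ⟨β, hβ⟩ := hd2.exists_const_forall_eq_of_bounded
    (by
      rw [isBounded_iff_forall_norm_le]
      exact ⟨C + 2, by rintro _ ⟨w, rfl⟩; exact hder w⟩)
  refine ⟨p 0, β, fun w => ?_⟩
  have h1 : ∀ w, deriv (fun w => p w - β * w) w = 0 := by
    intro w
    have h2 : HasDerivAt (fun w : ℂ => β * w) β w := by
      simpa using (hasDerivAt_id w).const_mul β
    have h3 : HasDerivAt p (deriv p w) w := (hp w).hasDerivAt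
    have := (h3.sub h2).deriv
    rw [hβ w, sub_self] at this
    exact this
  have h4 : Differentiable ℂ (fun w : ℂ => p w - β * w) := by
    fun_prop
  have := is_const_of_deriv_eq_zero h4 h1 w 0
  simp only [mul_zero, sub_zero] at this
  rw [← this]; ring

/-- An entire function with an entire inverse is affine. -/
theorem aff (f h : ℂ → ℂ) (hf : Differentiable ℂ f) (hh : Differentiable ℂ h)
    (hhf : ∀ w, h (f w) = w) (_hfh : ∀ w, f (h w) = w) :
    ∃ a β : ℂ, a ≠ 0 ∧ ∀ w, f w = a * w + β := by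
  set F : ℂ → ℂ := fun w => f w - f 0 with hF
  set H : ℂ → ℂ := fun u => h (u + f 0) with hH
  have hFd : Differentiable ℂ F := by fun_prop
  have hHd : Differentiable ℂ H := by fun_prop
  have hHF : ∀ w, H (F w) = w := by
    intro w
    simp [hF, hH, hhf]
  have hF0 : F 0 = 0 := by simp [hF]
  have hH0 : H 0 = 0 := by
    have := hHF 0
    rwa [hF0] at this
  have hFne : ∀ w, w ≠ 0 → F w ≠ 0 := by
    intro w hw h0
    have := hHF w
    rw [h0, hH0] at this
    exact hw this.symm
  set G : ℂ → ℂ := dslope F 0 with hG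
  have hGd : Differentiable ℂ G := by
    have : DifferentiableOn ℂ (dslope F 0) univ :=
      (Complex.differentiableOn_dslope univ_mem).2 hFd.differentiableOn
    exact differentiableOn_univ.1 this
  have hGF : ∀ w, w * G w = F w := by
    intro w
    have := sub_smul_dslope F 0 w
    simpa [hF0] using this
  have hG0 : G 0 ≠ 0 := by
    rw [hG, dslope_same]
    intro h0
    have h1 : HasDerivAt (fun w => H (F w)) (deriv H (F 0) * deriv F 0) 0 :=
      (hHd (F 0)).hasDerivAt.comp 0 (hFd 0).hasDerivAt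
    have h2 : HasDerivAt (fun w : ℂ => H (F w)) 1 0 := by
      have : (fun w : ℂ => H (F w)) = id := by
        funext w; exact hHF w
      rw [this]; exact hasDerivAt_id 0
    have := h1.unique h2
    rw [h0, mul_zero] at this
    exact zero_ne_one this
  have hGne : ∀ w, G w ≠ 0 := by
    intro w
    by_cases hw : w = 0
    · rw [hw]; exact hG0
    · intro h0
      have := hGF w
      rw [h0, mul_zero] at this
      exact hFne w hw this.symm
  have hpd : Differentiable ℂ (fun w => (G w)⁻¹) := fun w => (hGd w).inv (hGne w)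
  -- properness
  obtain ⟨R, hR⟩ : ∃ R : ℝ, ∀ w, ‖F w‖ ≤ 1 → ‖w‖ ≤ R := by
    have hc : IsCompact (H '' closedBall (0:ℂ) 1) :=
      (isCompact_closedBall 0 1).image hHd.continuous
    obtain ⟨R, hR⟩ := hc.isBounded.exists_norm_le
    refine ⟨R, fun w hw => hR w ⟨F w, by simpa using hw, hHF w⟩⟩
  obtain ⟨C, hC⟩ : ∃ C : ℝ, ∀ w, ‖w‖ ≤ R → ‖(G w)⁻¹‖ ≤ C := by
    have hc : IsCompact ((fun w => (G w)⁻¹) '' closedBall (0:ℂ) R) :=
      (isCompact_closedBall 0 R).image hpd.continuous
    obtain ⟨C, hC⟩ := hc.isBounded.exists_norm_le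
    exact ⟨C, fun w hw => hC _ ⟨w, by simpa using hw, rfl⟩⟩
  have hbound : ∀ w, ‖(G w)⁻¹‖ ≤ |C| + ‖w‖ := by
    intro w
    by_cases hw : ‖w‖ ≤ R
    · have := hC w hw
      have h1 := le_abs_self C
      have h2 := norm_nonneg w
      linarith
    · have h1 : 1 < ‖F w‖ := by
        by_contra hcon
        exact hw (hR w (not_lt.1 hcon))
      have h2 : w ≠ 0 := by
        rintro rfl
        rw [hF0, norm_zero] at h1
        linarith
      have h3 : ‖w‖ * ‖G w‖ = ‖F w‖ := by rw [← norm_mul, hGF]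
      have h4 : 0 < ‖G w‖ := norm_pos_iff.2 (hGne w)
      have h5 : ‖(G w)⁻¹‖ ≤ ‖w‖ := by
        rw [norm_inv, inv_le_comm₀ h4 (norm_pos_iff.2 h2)]
        rw [inv_le_iff_one_le_mul₀ (norm_pos_iff.2 h2), mul_comm, h3]
        exact h1.le
      have := abs_nonneg C
      linarith
  obtain ⟨α, β, hαβ⟩ := entire_of_linear_growth hpd (abs_nonneg C) hbound
  have hβ : β = 0 := by
    by_contra hβ
    have := hαβ (-α / β)
    rw [mul_div_cancel₀ _ hβ, add_neg_cancel] at this
    exact inv_ne_zero (hGne _) this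
  have hα : ∀ w, (G w)⁻¹ = α := by
    intro w
    rw [hαβ w, hβ, zero_mul, add_zero]
  have hα0 : α ≠ 0 := by
    rw [← hα 0]; exact inv_ne_zero (hGne 0)
  refine ⟨α⁻¹, f 0, inv_ne_zero hα0, fun w => ?_⟩
  have h1 := hGF w
  have h2 : G w = α⁻¹ := by rw [← hα w, inv_inv]
  rw [h2] at h1
  have h3 : F w = f w - f 0 := rfl
  rw [mul_comm, h1, h3]; ring

end Pool.Agent.Helper74.Lin
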