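import Pool.Agent.Helper74.Lin.Aff
import Pool.Agent.Helper95.Lin.GoalsI

/-! # Packet AFF of `MP_97d78d_ag` -/

namespace Pool.Agent.Helper74.Lin

theorem aff_packet : Pool.Agent.Helper95.Lin.S_AFF := aff

end Pool.Agent.Helper74.Lin
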